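import Pool.Agent.TH161.LW.Final3
import Pool.Agent.H13R3.WB.Lin

/-!
# Nearly balanced pairs in large antichains, with a rate

The balance constant `balance` and the probabilities `prob` are those of the problem.  Let `A` be an
antichain of a finite poset `P` such that at most `κ |A|` elements of `P` are equal or incomparable
to an element of `A`, and let `0 < ε ≤ 1/2`.  If `log |A| ≥ 2 * 10 ^ 7 * log (κ / ε) ^ 3 / ε ^ 4`,
then `A` contains two elements `x`, `y` with `ℙ(x ≺ y)` and `ℙ(y ≺ x)` at least `1/2 - ε`; so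
`δ(P) ≥ 1/2 - ε`.
-/

set_option autoImplicit false

namespace Pool.Agent.Results.MP_33fb9b_co.LargeWidth

open Pool.Agent.H13R3.WB Pool.Agent.TH161.LW

lemma eN_pos (P : Type) [Fintype P] [PartialOrder P] : 0 < eN P := by
  unfold eN
  rw [Nat.card_pos_iff]
  refine ⟨?_, inferInstance⟩
  let _ : Fintype (LinearExtension P) := inferInstanceAs (Fintype P)
  let e : Fin (Fintype.card P) ≃o LinearExtension P :=
    monoEquivOfFin (LinearExtension P) rfl
  let σ : P ≃ Fin (Fintype.card P) := e.symm.toEquiv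
  refine ⟨σ, ?_⟩
  have hm : Monotone (toLinearExtension : P → LinearExtension P) := toLinearExtension.monotone
  intro a b hab
  refine lt_of_le_of_ne ?_ (fun h => hab.ne (σ.injective h))
  exact e.symm.monotone (hm hab.le)

lemma prob_eq (P : Type) [Fintype P] [PartialOrder P] (x y : P) :
    prob P x y = (eP P x y : ℝ) / eN P := by
  unfold prob eP eN
  have h : ∀ f : P ≃ Fin (Fintype.card P), Monotone ⇑f ↔ StrictMono ⇑f := fun f =>
    ⟨fun h => h.strictMono_of_injective f.injective, fun h => h.monotone⟩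
  simp only [h]

theorem result :
    ∀ ε κ : ℝ, 0 < ε → ε ≤ 1 / 2 → 1 ≤ κ →
      ∀ (P : Type) [Fintype P] [PartialOrder P] (A : Finset P),
        IsAntichain (· ≤ ·) (A : Set P) →
        ({z : P | ∃ x ∈ A, ¬ z < x ∧ ¬ x < z}.ncard : ℝ) ≤ κ * A.card →
        20000000 * Real.log (κ / ε) ^ 3 / ε ^ 4 ≤ Real.log A.card →
        (∃ x ∈ A, ∃ y ∈ A, x ≠ y ∧ 1 / 2 - ε ≤ prob P x y ∧ 1 / 2 - ε ≤ prob P y x) ∧
          1 / 2 - ε ≤ balance P := by
  intro ε κ hε0 hε2 hκ P _ _ A hA hK hw
  have hKK : ((KK A).card : ℝ) ≤ κ * A.card := by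
    refine le_trans ?_ hK
    have h1 : ((KK A : Finset P) : Set P) ⊆ {z : P | ∃ x ∈ A, ¬ z < x ∧ ¬ x < z} := by
      intro z hz
      unfold KK at hz
      simp only [Finset.coe_filter, Finset.mem_univ, true_and, Set.mem_ofPred_eq] at hz
      obtain ⟨h1, h2⟩ := hz
      push Not at h1 h2
      obtain ⟨x, hx, hzx⟩ := h1
      obtain ⟨y, hy, hyz⟩ := h2
      by_cases h3 : x < z
      · by_cases h4 : z < y
        · exact absurd (h3.trans h4).le (hA hx hy (h3.trans h4).ne)
        · exact ⟨y, hy, h4, hyz⟩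
      · exact ⟨x, hx, hzx, h3⟩
    have h2 := Set.ncard_le_ncard h1 (Set.toFinite _)
    rw [Set.ncard_coe_finset] at h2
    exact_mod_cast h2
  obtain ⟨x, hx, y, hy, hxy, h1, h2⟩ := main_real hε0 hε2 hκ hA hKK hw
  have he : (0 : ℝ) < eN P := by exact_mod_cast eN_pos P
  have h1' : 1 / 2 - ε ≤ prob P x y := by
    rw [prob_eq, le_div_iff₀ he]; exact h1
  have h2' : 1 / 2 - ε ≤ prob P y x := by
    rw [prob_eq, le_div_iff₀ he]; exact h2
  refine ⟨⟨x, hx, y, hy, hxy, h1', h2'⟩, ?_⟩
  unfold balance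
  exact (le_min h1' h2').trans
    (le_ciSup (f := fun p : P × P => min (prob P p.1 p.2) (prob P p.2 p.1))
      (Set.finite_range _).bddAbove (x, y))

end Pool.Agent.Results.MP_33fb9b_co.LargeWidth
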