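import Pool.Agent.TH161.KS.Full
import Pool.Agent.H13R3.WB.Lin

/-!
# Posets of large width have balance constant close to one half

For every `ε > 0` there is `W` such that every finite poset with an antichain of at least `W`
elements has balance constant at least `1/2 - ε` (the conjecture of Kahn and Saks).
-/

set_option autoImplicit false

namespace Pool.Agent.Results.MP_33fb9b_co.WidePosets

open Pool.Agent.H13R3.WB Pool.Agent.TH161.LW

lemma prob_eq (P : Type) [Fintype P] [PartialOrder P] (x y : P) :
    prob P x y = (eP P x y : ℝ) / eN P := by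
  unfold prob eP eN
  have h : ∀ f : P ≃ Fin (Fintype.card P), Monotone ⇑f ↔ StrictMono ⇑f := fun f =>
    ⟨fun h => h.strictMono_of_injective f.injective, fun h => h.monotone⟩
  simp only [h]

theorem result :
    ∀ ε : ℝ, 0 < ε → ∃ W : ℕ, ∀ (P : Type) [Fintype P] [PartialOrder P] (A : Finset P),
      IsAntichain (· ≤ ·) (A : Set P) → W ≤ A.card → 1 / 2 - ε ≤ balance P := by
  intro ε hε
  obtain ⟨W, hW⟩ := Pool.Agent.TH161.KS.kahn_saks (min ε (1 / 2)) (lt_min hε (by norm_num))
    (min_le_right _ _)
  refine ⟨W, fun P _ _ A hA hWA => ?_⟩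
  obtain ⟨x, y, -, h1, h2⟩ := hW P A hA hWA
  have he : (0 : ℝ) < eN P := by exact_mod_cast Pool.Agent.TH161.KS.eN_pos P
  have h1' : 1 / 2 - min ε (1 / 2) ≤ prob P x y := by
    rw [prob_eq, le_div_iff₀ he]; exact h1
  have h2' : 1 / 2 - min ε (1 / 2) ≤ prob P y x := by
    rw [prob_eq, le_div_iff₀ he]; exact h2
  have h3 : 1 / 2 - ε ≤ 1 / 2 - min ε (1 / 2) := by
    have := min_le_left ε (1 / 2)
    linarith
  unfold balance
  exact (h3.trans (le_min h1' h2')).trans
    (le_ciSup (f := fun p : P × P => min (prob P p.1 p.2) (prob P p.2 p.1))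
      (Set.finite_range _).bddAbove (x, y))

end Pool.Agent.Results.MP_33fb9b_co.WidePosets
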