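import Mathlib
import Pool.Agent.TH153.WX.Gap
import Pool.Agent.TH153.WX.Upper

/-!
# The exact gap constant for posets of width two

The balance constant `balance` and the class `InD` (the class `𝒟`) are those of the problem.

Let `γ = (10999528681 - 3105 √433) / 31531330288 = 0.348842372639...`.  Then `γ` is the infimum of
the balance constants of the finite posets of width at most two that are not in `𝒟`.  It is not
attained.  More generally `γ < δ(P)` for all finite posets `P` outside `𝒟` that are built from posets
of width at most two by disjoint sums and direct sums; these include all series-parallel posets.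

Lower bound.  A poset of width two is a system of lattice paths between two walls.  If all pairs are
unbalanced, every level `k` has a heavy point.  A finite tree of cases (how the walls move, where the
heavy point is) is searched, and a case is excluded by a nonnegative combination of the linear
inequalities for the vector of the numbers of completions.  With a constant slightly larger than `γ`
all cases are excluded, except one system at level `29` (`check_certP`).  From there on the system
must be periodic with period `8` (`check_certC`: the numbers of paths lie in a cone, and the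
inequality for the first event, which is `rho * x < y` for the two numbers of completions, is
carried over exactly, `Inv.next`); hence it never ends, a contradiction.

Upper bound.  The posets `Tm m` with `69 + 16 m` elements follow the periodic system and then the
reflected one.  All pairs except the first one and the last one are unbalanced with `0.34884`
(`ps_upper`), and the two exceptional probabilities are at most `γ + 15 ^ (-m)`.
-/

namespace Pool.Agent.Results.MP_33fb9b_co.WidthTwoExact

open Pool.Agent.H13R3.WB Pool.Agent.H931R3.Bal Pool.Agent.TH153.WX

/-- Every antichain has at most two elements, and there is at least one element. -/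
def WidthLeTwo (P : Type) [PartialOrder P] : Prop :=
  Nonempty P ∧ ∀ s : Finset P, IsAntichain (· ≤ ·) (s : Set P) → s.card ≤ 2

lemma balance_rat (P : Type) [Fintype P] [PartialOrder P] [Nonempty P] :
    ∃ q : ℚ, (q : ℝ) = balance P := by
  obtain ⟨p, hp⟩ := exists_eq_ciSup_of_finite
    (f := fun p : P × P => min (prob P p.1 p.2) (prob P p.2 p.1))
  have h : ∀ x y : P, ∃ q : ℚ, (q : ℝ) = prob P x y := by
    intro x y
    refine ⟨(Nat.card {f : P ≃ Fin (Fintype.card P) // Monotone f ∧ f x < f y} : ℚ) /
      Nat.card {f : P ≃ Fin (Fintype.card P) // Monotone f}, ?_⟩
    unfold prob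
    push_cast
    rfl
  obtain ⟨q1, h1⟩ := h p.1 p.2
  obtain ⟨q2, h2⟩ := h p.2 p.1
  refine ⟨min q1 q2, ?_⟩
  unfold balance
  rw [← hp, Rat.cast_min, h1, h2]

lemma gam_irrational (q : ℚ) : (q : ℝ) ≠ gam := by
  intro h
  have h1 : Irrational √433 := by
    have : Nat.Prime 433 := by norm_num
    exact_mod_cast this.irrational_sqrt
  apply h1
  refine ⟨(10999528681 - 31531330288 * q) / 3105, ?_⟩
  push_cast
  rw [h]
  unfold gam
  ring

theorem result :
    IsGLB {d : ℝ | ∃ (P : Type) (_ : Fintype P) (_ : PartialOrder P), WidthLeTwo P ∧ ¬ InD P ∧
      balance P = d} ((10999528681 - 3105 * √433) / 31531330288) ∧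
    ∀ (P : Type) [Fintype P] [PartialOrder P], Built WidthLeTwo P → ¬ InD P →
      (10999528681 - 3105 * √433) / 31531330288 < balance P := by
  change IsGLB _ gam ∧ ∀ (P : Type) [Fintype P] [PartialOrder P], Built WidthLeTwo P → ¬ InD P →
      gam < balance P
  refine ⟨⟨?_, ?_⟩, ?_⟩
  · rintro d ⟨P, _, _, ⟨hne, hw⟩, hD, rfl⟩
    exact (width_two_gap P hw).resolve_left hD
  · intro c hc
    apply le_of_forall_pos_le_add
    intro ε hε
    obtain ⟨m, hm⟩ := exists_pow_lt_of_lt_one hε (show (1 : ℝ) / 15 < 1 by norm_num)
    have h1 : c ≤ balance (Tm m).W := by
      apply hc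
      have hlen := len_wm m
      have hn := n_eq m
      have hne : 0 < Fintype.card (Tm m).W := by rw [(Tm m).card_W]; omega
      exact ⟨(Tm m).W, inferInstance, inferInstance,
        ⟨Fintype.card_pos_iff.1 hne, (Tm m).antichain_card⟩, fam_not_InD m, rfl⟩
    refine h1.trans ((fam_upper m).trans ?_)
    rw [div_pow, one_pow] at hm
    linarith
  · intro P _ _ hP hD
    have h := Built.gap (c := gam) (gam_lt.le.trans (by norm_num [Cn, Dn])) (base := WidthLeTwo)
      (fun Q _ _ hQ => by
        have := hQ.1
        exact ⟨hQ.1, width_two_gap Q hQ.2⟩) hP
    have hne : Nonempty P := h.1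
    have h1 := h.2.resolve_left hD
    obtain ⟨q, hq⟩ := balance_rat P
    exact lt_of_le_of_ne h1 (fun he => gam_irrational q (by rw [hq, he]))

end Pool.Agent.Results.MP_33fb9b_co.WidthTwoExact
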